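import Pool.Agent.helper31.RLS.Spec

/-!
# CP of project rls (MP_ad8ced_nt): comparison for Rosser's weights
-/

set_option autoImplicit false

namespace Pool.Agent.RLS

open Finset

theorem CP_ind (h1 : CA_stmt) (h2 : CB_stmt) (h3 : GI_stmt) (u A : ℝ) (F f : ℝ → ℝ)
    (hu : 4 ≤ u) (hD : Dat u A F f) (B : ℝ) (hB : 0 ≤ B) (n : ℕ) :
    ∀ (g : ℕ → ℝ) (om et y L : ℝ) (P : Finset ℕ), 0 < om → 0 ≤ et → om ≤ y → L ≤ u * om →
      L < (n + 1) * om → Good g om et y P → ∑ p ∈ P, g p ≤ B →
      (y ≤ L → SS true g L P ≤ om / y * F (L / y) + 12 * (1 + B) ^ (n + 1) * et) ∧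
      (2 * y ≤ L → om / y * f (L / y) - 12 * (1 + B) ^ (n + 1) * et ≤ SS false g L P) := by
  induction n with
  | zero =>
    intro g om et y L P hom het hy hLu hL hG hs
    have hL' : L < om := by
      have h4 : (((0 : ℕ) : ℝ) + 1) * om = om := by
        push_cast
        ring
      rwa [h4] at hL
    constructor
    · intro hyL
      exact absurd hyL (not_le.2 (lt_of_lt_of_le hL' hy))
    · intro hyL
      exfalso
      linarith
  | succ n ih =>
    intro g om et y L P hom het hy hLu hL hG hs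
    have hgi := h3 g om et y P hom hy hG
    have hg0 : ∀ p ∈ P, 0 ≤ g p := fun p hp => (hG.g01 p hp).1
    have hS0 : 0 ≤ ∑ p ∈ P, g p := Finset.sum_nonneg hg0
    have hbs : ∀ p, ∑ q ∈ bel P p, g q ≤ B := by
      intro p
      refine le_trans ?_ hs
      exact Finset.sum_le_sum_of_subset_of_nonneg (Finset.filter_subset _ _)
        (fun q hq _ => hg0 q hq)
    have hE1 : 12 * (1 + B) * et ≤ 12 * (1 + B) ^ (n + 1) * et := by
      have h5 : 1 + B ≤ (1 + B) ^ (n + 1) := by
        apply le_self_pow₀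
        · linarith
        · exact Nat.succ_ne_zero n
      have h6 : (1 + B) * et ≤ (1 + B) ^ (n + 1) * et := mul_le_mul_of_nonneg_right h5 het
      linarith
    have hE0 : 0 ≤ 12 * (1 + B) ^ (n + 1) * et := by positivity
    have hE2 : 12 * (1 + B) ^ (n + 1 + 1) * et = 12 * (1 + B) ^ (n + 1) * et * (1 + B) := by
      rw [pow_succ (1 + B) (n + 1)]
      ring
    rw [hE2]
    generalize hE : 12 * (1 + B) ^ (n + 1) * et = e at hE1 hE0
    have hBe : 0 ≤ B * et := mul_nonneg hB het
    have hLn : ∀ p ∈ P, L - Real.log p < ((n : ℝ) + 1) * om := by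
      intro p hp
      have h6 := (hG.rng p hp).1
      push_cast at hL
      linarith
    have hLu' : ∀ p ∈ P, L - Real.log p ≤ u * om := by
      intro p hp
      have h6 := (hG.rng p hp).1
      linarith
    constructor
    · intro hyL
      have h7 := h1 u A F f hu hD g om et e y L P hom het hE0 hy hyL hLu hG (by
        intro p hp hpL
        have h8 := (ih g om et (Real.log p) (L - Real.log p) (bel P p) hom het
          (hG.rng p hp).1 (hLu' p hp) (hLn p hp) (hgi.1 p hp) (hbs p)).2 (by linarith)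
        rw [hE] at h8
        exact h8)
      have h9 : (et + e) * ∑ p ∈ P, g p ≤ (et + e) * B :=
        mul_le_mul_of_nonneg_left hs (by linarith)
      nlinarith [h7, h9, hE1, hBe]
    · intro hyL
      have h7 := h2 u A F f hu hD g om et e y L P hom het hE0 hy hyL hLu hG (by
        intro p hp
        have h10 := (hG.rng p hp).2
        have h8 := (ih g om et (Real.log p) (L - Real.log p) (bel P p) hom het
          (hG.rng p hp).1 (hLu' p hp) (hLn p hp) (hgi.1 p hp) (hbs p)).1 (by linarith)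
        rw [hE] at h8
        exact h8)
      have h9 : (4 * et + e) * ∑ p ∈ P, g p ≤ (4 * et + e) * B :=
        mul_le_mul_of_nonneg_left hs (by linarith)
      nlinarith [h7, h9, hE1, hBe]

theorem CP (h1 : CA_stmt) (h2 : CB_stmt) (h3 : GI_stmt) : CP_stmt := by
  intro u A F f hu hD B hB
  refine ⟨12 * (1 + B) ^ (⌊u⌋₊ + 1), by positivity, ?_⟩
  intro g om et y L P hom het hy hLu hG hs
  refine CP_ind h1 h2 h3 u A F f hu hD B hB ⌊u⌋₊ g om et y L P hom het hy hLu ?_ hG hs
  have h4 : u < (⌊u⌋₊ : ℝ) + 1 := Nat.lt_floor_add_one u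
  calc L ≤ u * om := hLu
    _ < ((⌊u⌋₊ : ℝ) + 1) * om := mul_lt_mul_of_pos_right h4 hom

end Pool.Agent.RLS
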